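import Mathlib

set_option autoImplicit false

namespace Pool.Agent.Results.MP_08a4a0_co.FirstWins

/-- The triangular ladder `T_n` (vertex `i` stands for `i + 1`). -/
def T (n : ℕ) : SimpleGraph (Fin n) :=
  SimpleGraph.fromRel (fun i j => j.val = i.val + 1 ∨ j.val = i.val + 2)

section Defs
variable {V : Type} (G : SimpleGraph V)

/-- A colouring in progress (`none` = not yet coloured) gives distinct colour multisets to
distinct edges between coloured vertices. -/
def Ok {k : ℕ} (c : V → Option (Fin k)) : Prop :=
  ∀ u v u' v' a b a' b', G.Adj u v → G.Adj u' v' → c u = some a → c v = some b →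
    c u' = some a' → c v' = some b' → s(a, b) = s(a', b') → s(u, v) = s(u', v')

/-- The edge-distinguishing chromatic number. -/
noncomputable def lam : ℕ := sInf {k | 1 ≤ k ∧ ∃ c : V → Fin k, Ok G (fun v => some (c v))}

/-- A legal move colours one uncoloured vertex and keeps the colouring edge-distinguishing. -/
def Move [DecidableEq V] {k : ℕ} (c d : V → Option (Fin k)) : Prop :=
  ∃ v x, c v = none ∧ d = Function.update c v (some x) ∧ Ok G d

/-- `Win G true c`: the player to move at `c` can force making the last move.
`Win G false c`: the other player can. -/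
inductive Win [DecidableEq V] {k : ℕ} : Bool → (V → Option (Fin k)) → Prop
  | mover {c d} : Move G c d → Win false d → Win true c
  | other {c} : (∀ d, Move G c d → Win true d) → Win false c

end Defs

variable {n k : ℕ}

lemma Ok.map {G : SimpleGraph (Fin n)} {c : Fin n → Option (Fin k)} (σ : Equiv.Perm (Fin k))
    (h : Ok G c) : Ok G (fun v => (c v).map σ) := by
  intro u v u' v' a b a' b' h1 h2 e1 e2 e3 e4 e
  simp only [Option.map_eq_some_iff] at e1 e2 e3 e4
  obtain ⟨x, e1, rfl⟩ := e1
  obtain ⟨y, e2, rfl⟩ := e2
  obtain ⟨x', e3, rfl⟩ := e3
  obtain ⟨y', e4, rfl⟩ := e4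
  refine h u v u' v' x y x' y' h1 h2 e1 e2 e3 e4 ?_
  simpa using e

lemma Move.map {G : SimpleGraph (Fin n)} {c d : Fin n → Option (Fin k)} (σ : Equiv.Perm (Fin k))
    (h : Move G c d) : Move G (fun v => (c v).map σ) (fun v => (d v).map σ) := by
  obtain ⟨v, x, h1, rfl, h2⟩ := h
  refine ⟨v, σ x, by simp [h1], ?_, h2.map σ⟩
  funext w
  by_cases h : w = v
  · subst h; simp
  · simp [Function.update_of_ne h]

lemma Win.map {G : SimpleGraph (Fin n)} {b : Bool} {c : Fin n → Option (Fin k)}
    (h : Win G b c) : ∀ σ : Equiv.Perm (Fin k), Win G b (fun v => (c v).map σ) := by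
  induction h with
  | mover h1 _ ih => exact fun σ => Win.mover (h1.map σ) (ih σ)
  | other _ ih =>
    refine fun σ => Win.other (fun d hd => ?_)
    have h := hd.map σ⁻¹
    simp only [Option.map_map, Equiv.Perm.coe_inv, Equiv.symm_comp_self, Option.map_id,
      id_eq] at h
    have := ih _ h σ
    simpa [Option.map_map] using this

def upd (g : ℕ → ℕ) (i x : ℕ) : ℕ → ℕ := fun j => if j = i then x else g j

def edges (n : ℕ) : List (ℕ × ℕ) :=
  ((List.range n).flatMap fun i => [(i, i + 1), (i, i + 2)]).filter fun e => e.2 < n

def code (g : ℕ → ℕ) (e : ℕ × ℕ) : ℕ := min (g e.1) (g e.2) * 8 + max (g e.1) (g e.2)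

def live (n : ℕ) (g : ℕ → ℕ) : List (ℕ × ℕ) :=
  (edges n).filter fun e => g e.1 != 0 && g e.2 != 0

def okB (n : ℕ) (g : ℕ → ℕ) : Bool := decide ((live n g).map (code g)).Nodup

def Rep (c : Fin n → Option (Fin k)) (g : ℕ → ℕ) : Prop :=
  ∀ v : Fin n, g v = (c v).elim 0 (fun x => x.val + 1)

lemma mem_edges {e : ℕ × ℕ} : e ∈ edges n ↔ e.2 < n ∧ (e.2 = e.1 + 1 ∨ e.2 = e.1 + 2) := by
  obtain ⟨i, j⟩ := e
  simp only [edges, List.mem_filter, List.mem_flatMap, List.mem_range, List.mem_cons,
    Prod.mk.injEq, List.not_mem_nil, or_false, decide_eq_true_eq]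
  constructor
  · rintro ⟨⟨a, -, h⟩, h'⟩; omega
  · rintro ⟨h, h'⟩; exact ⟨⟨i, by omega, by omega⟩, h⟩

lemma Rep.some {c : Fin n → Option (Fin k)} {g : ℕ → ℕ} (h : Rep c g) (v : Fin n)
    (h0 : g v ≠ 0) : ∃ a, c v = some a ∧ g v = a.val + 1 := by
  have := h v
  cases e : c v with
  | none => simp [e] at this; exact absurd this h0
  | some a => exact ⟨a, rfl, by simpa [e] using this⟩

lemma ok_iff (hk : k ≤ 7) (hn : (edges n).Nodup) {c : Fin n → Option (Fin k)} {g : ℕ → ℕ}
    (h : Rep c g) : okB n g = true ↔ Ok (T n) c := by
  have hl : (live n g).Nodup := hn.filter _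
  rw [okB, decide_eq_true_eq, List.nodup_map_iff_inj_on hl]
  constructor
  · intro H
    have key : ∀ u v u' v' a b a' b', (v.val = u.val + 1 ∨ v.val = u.val + 2) →
        (v'.val = u'.val + 1 ∨ v'.val = u'.val + 2) → c u = some a → c v = some b →
        c u' = some a' → c v' = some b' → s(a, b) = s(a', b') → s(u, v) = s(u', v') := by
      intro u v u' v' a b a' b' h1 h2 e1 e2 e3 e4 e
      have r1 := h u
      have r2 := h v
      have r3 := h u'
      have r4 := h v'
      simp only [e1, e2, e3, e4, Option.elim_some] at r1 r2 r3 r4
      have := H (u, v) (by simp [live, mem_edges, h1, r1, r2]) (u', v')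
        (by simp [live, mem_edges, h2, r3, r4]) (by
          simp only [code, r1, r2, r3, r4]
          rcases Sym2.eq_iff.1 e with ⟨rfl, rfl⟩ | ⟨rfl, rfl⟩
          · rfl
          · rw [min_comm, max_comm])
      simp only [Prod.mk.injEq] at this
      rw [Fin.ext this.1, Fin.ext this.2]
    intro u v u' v' a b a' b' h1 h2 e1 e2 e3 e4 e
    rcases ((SimpleGraph.fromRel_adj _ _ _).1 h1).2 with h1 | h1 <;>
      rcases ((SimpleGraph.fromRel_adj _ _ _).1 h2).2 with h2 | h2
    · exact key _ _ _ _ _ _ _ _ h1 h2 e1 e2 e3 e4 e
    · rw [Sym2.eq_swap (a := u')]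
      exact key _ _ _ _ _ _ _ _ h1 h2 e1 e2 e4 e3 (e.trans Sym2.eq_swap)
    · rw [Sym2.eq_swap (a := u)]
      exact key _ _ _ _ _ _ _ _ h1 h2 e2 e1 e3 e4 (Sym2.eq_swap.trans e)
    · rw [Sym2.eq_swap (a := u), Sym2.eq_swap (a := u')]
      exact key _ _ _ _ _ _ _ _ h1 h2 e2 e1 e4 e3 (Sym2.eq_swap.trans (e.trans Sym2.eq_swap))
  · rintro H ⟨i, j⟩ h1 ⟨i', j'⟩ h2 e
    simp only [live, List.mem_filter, mem_edges, Bool.and_eq_true, bne_iff_ne] at h1 h2
    obtain ⟨a, e1, r1⟩ := h.some ⟨i, by omega⟩ h1.2.1
    obtain ⟨b, e2, r2⟩ := h.some ⟨j, by omega⟩ h1.2.2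
    obtain ⟨a', e3, r3⟩ := h.some ⟨i', by omega⟩ h2.2.1
    obtain ⟨b', e4, r4⟩ := h.some ⟨j', by omega⟩ h2.2.2
    simp only [code] at e r1 r2 r3 r4
    rw [r1, r2, r3, r4] at e
    have := H _ _ _ _ a b a' b'
      ((SimpleGraph.fromRel_adj _ _ _).2 ⟨by simp only [ne_eq, Fin.mk.injEq]; omega, Or.inl h1.1.2⟩)
      ((SimpleGraph.fromRel_adj _ _ _).2 ⟨by simp only [ne_eq, Fin.mk.injEq]; omega, Or.inl h2.1.2⟩)
      e1 e2 e3 e4 (by
        have := a.2
        have := b.2
        have := a'.2
        have := b'.2
        simp only [Sym2.eq_iff, Fin.ext_iff]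
        omega)
    simp only [Sym2.eq_iff, Fin.mk.injEq, Prod.mk.injEq] at this ⊢
    omega

lemma Rep.upd {c : Fin n → Option (Fin k)} {g : ℕ → ℕ} (h : Rep c g) (v : Fin n) (x : Fin k) :
    Rep (Function.update c v (Option.some x)) (upd g v (x.val + 1)) := by
  intro w
  by_cases e : w = v
  · subst e; simp [FirstWins.upd]
  · have : w.val ≠ v.val := fun h => e (Fin.ext h)
    simp [FirstWins.upd, this, Function.update_of_ne e, h w]

def dig (s i : ℕ) : ℕ := Nat.mod (Nat.div s (Nat.pow 8 i)) 8

lemma dig_eq (s i : ℕ) : dig s i = s / 8 ^ i % 8 := rfl

def put (s i x : ℕ) : ℕ := Nat.add s (Nat.mul (Nat.succ x) (Nat.pow 8 i))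

lemma put_eq (s i x : ℕ) : put s i x = s + (x + 1) * 8 ^ i := rfl

lemma dig_add {s i x : ℕ} (h : dig s i = 0) (hx : x < 8) : dig (s + x * 8 ^ i) = upd (dig s) i x := by
  funext j
  simp only [dig_eq, upd] at *
  have e : (s + x * 8 ^ i) / 8 ^ i = s / 8 ^ i + x := Nat.add_mul_div_right _ _ (by positivity)
  split_ifs with hj
  · subst hj; rw [e]; omega
  rcases lt_or_gt_of_ne hj with hj | hj
  · obtain ⟨d, rfl⟩ := Nat.exists_eq_add_of_lt hj
    rw [show x * 8 ^ (j + d + 1) = 8 * (x * 8 ^ d) * 8 ^ j by ring,
      Nat.add_mul_div_right _ _ (by positivity), Nat.add_mul_mod_self_left]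
  · obtain ⟨d, rfl⟩ := Nat.exists_eq_add_of_lt hj
    have p : 8 ^ (i + d + 1) = 8 ^ i * 8 * 8 ^ d := by ring
    rw [p, ← Nat.div_div_eq_div_mul, ← Nat.div_div_eq_div_mul, ← Nat.div_div_eq_div_mul,
      ← Nat.div_div_eq_div_mul, e, show (s / 8 ^ i + x) / 8 = s / 8 ^ i / 8 by omega]

def force (r : ℕ) (F : ℕ → Bool) : Bool :=
  match r with
  | 0 => F 0
  | r + 1 => F (r + 1)

lemma force_eq (r : ℕ) (F : ℕ → Bool) : force r F = F r := by cases r <;> rfl

def okF (s : ℕ) : List (ℕ × ℕ) → ℕ → Bool
  | [], _ => true
  | e :: l, acc => force (dig s e.1) fun a => force (dig s e.2) fun b =>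
      bif Nat.beq a 0 || Nat.beq b 0 then okF s l acc else
        force (bif Nat.ble a b then Nat.add (Nat.mul a 8) b else Nat.add (Nat.mul b 8) a) fun t =>
          bif Nat.beq (Nat.land 1 (Nat.shiftRight acc t)) 0 then
            force (Nat.lor acc (Nat.pow 2 t)) (okF s l) else false

lemma okF_iff (s : ℕ) (l : List (ℕ × ℕ)) : ∀ acc, okF s l acc = true ↔
    ((l.filter fun e => dig s e.1 != 0 && dig s e.2 != 0).map (code (dig s))).Nodup ∧
      ∀ t ∈ (l.filter fun e => dig s e.1 != 0 && dig s e.2 != 0).map (code (dig s)),
        acc.testBit t = false := by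
  induction l with
  | nil => simp [okF]
  | cons e l ih =>
    intro acc
    have tb : ∀ (t : ℕ) (B : Bool), (bif Nat.beq (Nat.land 1 (Nat.shiftRight acc t)) 0 then B
        else false) = (!acc.testBit t && B) := by
      intro t B
      change (bif Nat.beq (1 &&& (acc >>> t)) 0 then B else false) = _
      unfold Nat.testBit
      cases (1 &&& (acc >>> t)) <;> simp
    have lo : ∀ t : ℕ, Nat.lor acc (Nat.pow 2 t) = acc ||| 2 ^ t := fun _ => rfl
    have c : (bif Nat.ble (dig s e.1) (dig s e.2) then Nat.add (Nat.mul (dig s e.1) 8) (dig s e.2)
        else Nat.add (Nat.mul (dig s e.2) 8) (dig s e.1)) = code (dig s) e := by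
      unfold code
      by_cases h : dig s e.1 ≤ dig s e.2
      · rw [Nat.ble_eq_true_of_le h, min_eq_left h, max_eq_right h]; rfl
      · rw [Bool.eq_false_iff.2 (fun h' => h (Nat.le_of_ble_eq_true h')),
          min_eq_right (by omega), max_eq_left (by omega)]; rfl
    simp only [okF, force_eq, c, tb, lo, List.filter_cons]
    by_cases h : dig s e.1 = 0 ∨ dig s e.2 = 0
    · have h1 : (Nat.beq (dig s e.1) 0 || Nat.beq (dig s e.2) 0) = true := by simpa using h
      have h2 : ¬ (dig s e.1 != 0 && dig s e.2 != 0) = true := by
        simp only [Bool.and_eq_true, bne_iff_ne]; tauto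
      rw [h1, if_neg h2, cond_true, ih]
    · have h1 : (Nat.beq (dig s e.1) 0 || Nat.beq (dig s e.2) 0) = false := by
        rw [Bool.eq_false_iff]; simpa using h
      have h2 : (dig s e.1 != 0 && dig s e.2 != 0) = true := by
        simp only [Bool.and_eq_true, bne_iff_ne]; tauto
      rw [h1, if_pos h2, cond_false, List.map_cons, List.nodup_cons, List.forall_mem_cons,
        Bool.and_eq_true, ih]
      generalize List.map _ _ = L
      simp only [Nat.testBit_or, Nat.testBit_two_pow, Bool.or_eq_false_iff,
        decide_eq_false_iff_not, Bool.not_eq_true']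
      constructor
      · rintro ⟨a, b, d⟩
        exact ⟨⟨fun h => (d _ h).2 rfl, b⟩, a, fun t ht => (d t ht).1⟩
      · rintro ⟨⟨a, b⟩, d, e⟩
        exact ⟨d, b, fun t ht => ⟨e t ht, fun h => a (h ▸ ht)⟩⟩

lemma okF_eq (s : ℕ) : okF s (edges n) 0 = okB n (dig s) := by
  rw [Bool.eq_iff_iff, okF_iff, okB, decide_eq_true_iff]; simp [live]

def look (t : ℕ) : List ℕ → ℕ
  | [] => 0
  | a :: l => bif Nat.beq (Nat.div a 128) t then Nat.mod a 128 else look t l

def rep (n : ℕ) (E : List (ℕ × ℕ)) (nx : ℕ → ℕ → Bool) (s m r : ℕ) : Bool :=
  force r fun r => force (r / 8) fun i => force (r % 8) fun x => force (max m (x + 1)) fun m' =>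
    force (put s i x) fun s' =>
      decide (i < n) && dig s i == 0 && decide (x < 7) && okF s' E 0 && nx s' m'

def chk (n : ℕ) (E : List (ℕ × ℕ)) (st : List ℕ) : ℕ → ℕ → ℕ → Bool
  | 0, _, _ => false
  | f + 1, s, m => (List.range n).all fun i => dig s i != 0 ||
      (List.range (min 7 (m + 1))).all fun x => force (put s i x) fun s' =>
        !okF s' E 0 || rep n E (chk n E st f) s' (max m (x + 1)) (look s' st)

def Bd (c : Fin n → Option (Fin k)) (m : ℕ) : Prop := ∀ v a, c v = some a → a.val < m

lemma Bd.upd {c : Fin n → Option (Fin k)} {m : ℕ} (h : Bd c m) (v : Fin n) (x : Fin k) :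
    Bd (Function.update c v (some x)) (max m (x.val + 1)) := by
  intro w a e
  by_cases h' : w = v
  · subst h'
    simp only [Function.update_self, Option.some.injEq] at e
    subst e; omega
  · rw [Function.update_of_ne h'] at e
    have := h w a e
    omega

lemma swap_fix {c : Fin n → Option (Fin k)} {m : ℕ} (h2 : Bd c m) {a b : Fin k} (ha : m ≤ a.val)
    (hb : m ≤ b.val) (w : Fin n) : (c w).map (Equiv.swap a b) = c w := by
  cases e : c w with
  | none => rfl
  | some z =>
    have := h2 w z e
    simp only [Option.map_some, Option.some.injEq]
    exact Equiv.swap_apply_of_ne_of_ne (by rintro rfl; omega) (by rintro rfl; omega)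

lemma swap_upd {c : Fin n → Option (Fin k)} {m : ℕ} (h2 : Bd c m) (v : Fin n) (a b : Fin k)
    (ha : m ≤ a.val) (hb : m ≤ b.val) : (fun w => (Function.update c v (some a) w).map
      (Equiv.swap a b)) = Function.update c v (some b) := by
  funext w
  by_cases h' : w = v
  · subst h'; simp
  · simp only [Function.update_of_ne h']
    exact swap_fix h2 ha hb w

lemma rep_sound (hn : (edges n).Nodup) {nx : ℕ → ℕ → Bool}
    (hx : ∀ s m, nx s m = true → ∀ c : Fin n → Option (Fin 7), Rep c (dig s) → Bd c m →
      Win (T n) false c) {s m r : ℕ} (h : rep n (edges n) nx s m r = true)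
    {c : Fin n → Option (Fin 7)} (h1 : Rep c (dig s)) (h2 : Bd c m) : Win (T n) true c := by
  simp only [rep, force_eq, put_eq, okF_eq, Bool.and_eq_true, decide_eq_true_eq, beq_iff_eq] at h
  obtain ⟨⟨⟨⟨a, b⟩, d⟩, e⟩, f⟩ := h
  have r := h1.upd ⟨r / 8, a⟩ ⟨r % 8, d⟩
  rw [← dig_add b (by simp only; omega)] at r
  refine Win.mover ⟨⟨_, a⟩, ⟨_, d⟩, ?_, rfl, (ok_iff le_rfl hn r).1 e⟩
    (hx _ _ f _ r (h2.upd _ _))
  have := h1 ⟨_, a⟩
  rw [b] at this
  cases e : c ⟨_, a⟩ with
  | none => rfl
  | some y => simp [e] at this

lemma chk_sound (hn : (edges n).Nodup) {st : List ℕ} (f : ℕ) :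
    ∀ g m, chk n (edges n) st f g m = true →
      ∀ c : Fin n → Option (Fin 7), Rep c (dig g) → Bd c m → Win (T n) false c := by
  induction f with
  | zero => intro g m h; simp [chk] at h
  | succ f ih =>
    intro g m h c h1 h2
    simp only [chk, force_eq, put_eq, okF_eq, List.all_eq_true, List.mem_range, Bool.or_eq_true, bne_iff_ne,
      Bool.not_eq_true'] at h
    have key : ∀ (v : Fin n) (x : Fin 7), x.val ≤ m → c v = none →
        Ok (T n) (Function.update c v (some x)) → Win (T n) true (Function.update c v (some x)) := by
      intro v x hx hv ho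
      have g0 : dig g v = 0 := by rw [h1 v, hv]; rfl
      have := x.2
      have r := h1.upd v x
      rw [← dig_add g0 (by omega)] at r
      rcases (h v v.2).resolve_left (by simp [g0]) x (by omega) with k | k
      · rw [(ok_iff le_rfl hn r).2 ho] at k; simp at k
      · exact rep_sound hn ih k r (h2.upd v x)
    refine Win.other ?_
    rintro d ⟨v, x, hv, rfl, ho⟩
    by_cases hx : x.val ≤ m
    · exact key v x hx hv ho
    have := x.2
    set y : Fin 7 := ⟨m, by omega⟩ with hy
    have e := fun a b => swap_upd h2 v a b
    have o := ho.map (Equiv.swap x y)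
    rw [e x y (by omega) le_rfl] at o
    have w := (key v y le_rfl hv o).map (Equiv.swap y x)
    rwa [e y x le_rfl (by omega)] at w

def noext (n : ℕ) (E : List (ℕ × ℕ)) : ℕ → ℕ → ℕ → Bool
  | 0, _, _ => false
  | f + 1, s, m => (List.range (min 6 (m + 1))).all fun x =>
      force (put s (n - (f + 1)) x) fun s' => force (max m (x + 1)) fun m' =>
        !okF s' E 0 || noext n E f s' m'

def pre (col : Fin n → Fin k) (i : ℕ) : Fin n → Option (Fin k) :=
  fun v => if v.val < i then some (col v) else none

lemma noext_sound (hn : (edges n).Nodup) (hk : k ≤ 6) (f : ℕ) : f ≤ n →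
    ∀ g m, noext n (edges n) f g m = true → ∀ col : Fin n → Fin k,
      Ok (T n) (fun v => some (col v)) → Rep (pre col (n - f)) (dig g) →
      Bd (pre col (n - f)) m → False := by
  induction f with
  | zero => intro _ g m h; simp [noext] at h
  | succ f ih =>
    intro hf g m h
    simp only [noext, force_eq, put_eq, okF_eq, List.all_eq_true, List.mem_range, Bool.or_eq_true,
      Bool.not_eq_true'] at h
    set v : Fin n := ⟨n - (f + 1), by omega⟩ with hv
    have key : ∀ col : Fin n → Fin k, (col v).val ≤ m → Ok (T n) (fun v => some (col v)) →
        Rep (pre col (n - (f + 1))) (dig g) → Bd (pre col (n - (f + 1))) m → False := by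
      intro col hx hc r bd
      have e : Function.update (pre col (n - (f + 1))) v (some (col v)) = pre col (n - f) := by
        funext w
        by_cases h' : w = v
        · subst h'; simp only [Function.update_self, pre]; rw [if_pos (by simp only [hv]; omega)]
        · have : w.val ≠ n - (f + 1) := fun h => h' (Fin.ext h)
          rw [Function.update_of_ne h']
          unfold pre
          split_ifs <;> first | rfl | omega
      have r' := r.upd v (col v)
      have b' := bd.upd v (col v)
      have := (col v).2
      rw [e] at b'
      rw [e, ← dig_add (by simpa [hv, pre] using r v) (by omega)] at r'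
      rcases h (col v) (by omega) with h | h
      · rw [(ok_iff (by omega) hn r').2 ?_] at h
        · simp at h
        intro u w u' w' a b a' b' h1 h2 e1 e2 e3 e4
        unfold pre at e1 e2 e3 e4
        refine hc u w u' w' a b a' b' h1 h2 ?_ ?_ ?_ ?_ <;> split_ifs at * <;> assumption
      · exact ih (by omega) _ _ h col hc r' b'
    intro col hc r bd
    by_cases hx : (col v).val ≤ m
    · exact key col hx hc r bd
    have := (col v).2
    set y : Fin k := ⟨m, by omega⟩ with hy
    have e : pre (fun w => Equiv.swap (col v) y (col w)) (n - (f + 1)) =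
        pre col (n - (f + 1)) := by
      funext w
      rw [← swap_fix bd (a := col v) (b := y) (by omega) le_rfl w]
      unfold pre
      split_ifs <;> rfl
    exact key (fun w => Equiv.swap (col v) y (col w)) (by simp [hy]) (hc.map _) (e ▸ r) (e ▸ bd)

lemma lam_eq (hn : (edges n).Nodup) (h1 : noext n (edges n) n 0 0 = true) (g : ℕ → ℕ)
    (hg : ∀ v : Fin n, g v < 7) (h2 : okB n (fun i => g i + 1) = true) : lam (T n) = 7 := by
  refine IsLeast.csInf_eq ⟨⟨by omega, fun v => ⟨g v, hg v⟩, (ok_iff le_rfl hn ?_).1 h2⟩, ?_⟩
  · intro v; rfl
  · rintro k ⟨-, col, hc⟩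
    by_contra hh
    exact noext_sound hn (by omega) n le_rfl _ _ h1 col hc (fun v => by simp [dig_eq, pre])
      (fun v a h => by simp [pre] at h)

lemma win_of (hn : (edges n).Nodup) (hl : lam (T n) = 7) (st : List ℕ) (r : ℕ)
    (h : rep n (edges n) (chk n (edges n) st 6) 0 0 r = true) :
    Win (T n) true (fun _ => (none : Option (Fin (lam (T n))))) := by
  rw [hl]
  exact rep_sound hn (chk_sound hn 6) h (fun _ => by simp [dig_eq]) (fun _ _ h => by simp at h)

def st8 : List ℕ :=
  [0, 1200, 33686690, 52036796, 1109001388, 34604186, 51578044, 1108542636, 41944218, 44238012,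
  1115882660, 570426522, 572720300, 587400356, 2234, 805333154, 805341353, 816351413, 981502117,
  805439650, 805505186, 805570731, 822388912, 855902356, 990120085, 805832872, 806357161,
  806881426, 807405737, 815835317, 983566485, 809502880, 813697185, 817891474, 822085792,
  822937781, 990382237, 838863001, 841091244, 855771300, 872417433, 905971873, 939526291,
  939886765, 960530589, 8360, 71311546, 541073586, 16537, 12730546, 33702072, 67256506,
  100810922, 268583088, 537018546, 805453994, 65704, 71368890, 541130930, 131217, 524456,
  4720826, 541589642, 1048721, 1068217, 13648056, 282087604, 416301196, 101728440, 370167980,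
  386941068, 269500554, 286280884, 403721388, 537936010, 806371466, 823151796, 940592300,
  4194448, 8388768, 8914105, 8916154, 814484660, 948440220, 9109683, 143332540, 1485504652,
  109576347, 109843644, 1452015756, 545783944, 814219402, 33554568, 67109024, 67634361,
  67636410, 873204908, 889719964, 67698873, 67829931, 84612284, 1426784396, 80216219, 80483516,
  1422655628, 604504200, 872939672, 268435600, 268574882, 286924980, 404365484, 269492378,
  286466228, 403906732, 276832410, 279126196, 411246756, 335552666, 337846444, 352526500,
  536871050, 536890529, 536906922, 552111285, 717261989, 537005217, 537070753, 537136299,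
  553954480, 587467924, 721685653, 537398440, 537922705, 538447017, 538971306, 551595189,
  719326357, 541068448, 545262737, 549457058, 553651360, 554503349, 721947805, 570428569,
  570592420, 572656788, 603983010, 637537434, 671091859, 671452333, 692096157]

def st10 : List ℕ :=
  [0, 1200, 33686728, 17215128747, 17226138787, 34604232, 17214669995, 17227056283, 41944264,
  17222010019, 17223386267, 570426562, 7013139659, 75735237805, 75753587877, 7014974667,
  75734779053, 75755422877, 7029654684, 7033128140, 92929328293, 110109197477, 75732354203,
  4328522938, 5134091467, 73856189613, 73874539685, 5135926475, 73855730861, 73876374685,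
  5150606492, 5154079948, 91050280101, 108230149285, 73853306011, 17213424793, 34393293977,
  34394997931, 35753952453, 45149193405, 34406007971, 35750282437, 45145523389, 35198731427,
  35221800133, 45938246829, 40835876003, 40858944701, 42180150445, 2232, 268462272, 2416208043,
  2417518763, 2418043051, 2432723099, 268568752, 303696075, 51841730723, 268634280, 272861348,
  13160384718, 103354697926, 274925716, 13159868622, 103354181830, 8862763156, 8865949902,
  111942019238, 68992305300, 68995492038, 81877248166, 268961986, 6711675084, 75430889628,
  269486280, 17461938355, 17550018731, 270010536, 274237596, 13159467214, 103353780422,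
  274466964, 13159409870, 103353723078, 8864139412, 8864573646, 111943395486, 68993681556,
  68994115782, 81878624414, 272631954, 272918692, 13160442062, 103354755270, 274753692,
  13159983310, 103354296518, 8862591132, 8866064590, 111942133926, 68992133276, 68995606726,
  81877362854, 281020563, 281249984, 281381064, 17464395958, 17662576806, 282626240, 283150528,
  283674820, 11021486286, 114100308126, 448825509, 452430022, 15484356766, 17631840414,
  103531186334, 120711055518, 2428536986, 11018471578, 11219994830, 114097883318, 17460922530,
  86180399258, 86381922502, 99065497782, 301992089, 369101000, 17549002906, 17549101218,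
  17549166739, 17549232291, 17550543001, 17551067291, 17565747361, 2415921305, 2417625259,
  2428635299, 6710888608, 17448306849, 51808045216, 51808831684, 60398504092, 8393, 34359877809,
  34359943352, 34630475948, 34852774086, 47536349366, 34645156004, 34849104070, 47532679350,
  34762596516, 34790383814, 47650119854, 43218313380, 43246100662, 43422261422, 34360795329,
  38655959211, 38668345499, 34361319601, 34428690604, 34445205660, 34363941041, 34368135321,
  34468929731, 40810717363, 34372329650, 34473124035, 34473255104, 36620476571, 38767960219,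
  43062927513, 34393301161, 34401886403, 40844140699, 34426855577, 34460410026, 34628182170,
  34896617625, 34898321587, 34997412003, 35165053090, 35166888132, 43756560540, 36507230376,
  38654714017, 40802197688, 41070895268, 41098682550, 41274843310, 41072730268, 41098223798,
  41274384558, 41087410332, 41090883766, 41289064614, 41204850844, 41208324270, 41230344358,
  16585, 34359757985, 34377583796, 36155968710, 47430257854, 34495024300, 36126608582,
  47400897726, 35434548396, 35656846534, 48340421814, 42950741164, 43173039294, 44582325430,
  34359886001, 34359951537, 34427064492, 34443837580, 34360803466, 34361327794, 34461995164,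
  36072935622, 47347224766, 34462253196, 36072871110, 47347160254, 35535732876, 35536131270,
  48420639902, 43051925644, 43052324030, 44662543518, 34363949249, 38658919579, 38661803189,
  38826953893, 38659113099, 38661738677, 38826889381, 38660489355, 38660821173, 38828265629,
  38759579787, 38759911589, 38762205341, 34368143538, 34468810948, 43058741388, 34372337841,
  34439450780, 34439708812, 34393309346, 34394886300, 34420379838, 36005826734, 47280115886,
  34395144332, 34420315326, 36005762222, 47280051374, 34411659404, 34412057790, 36022277278,
  47296566430, 35468624012, 35469022382, 35493794974, 48353531038, 42984816780, 42985215150,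
  43009987742, 44595434654, 34426863769, 34460418217, 34896625802, 34896891044, 34924678326,
  35100839086, 34898726044, 34924219574, 35100380334, 34913406108, 34916879542, 35115060390,
  35030846620, 35034320046, 35056340134, 35165061281, 35166113964, 35388412102, 48071987382,
  35182887052, 35384218822, 48067794102, 35300327564, 35325498566, 48185234606, 43756044428,
  43781215414, 43957376174, 38654722216, 40802205865, 40810598580, 40944812172, 65697, 13697210,
  9408938188, 69538480324, 68223177, 101777602, 6561005768, 23724097707, 75263705260, 269549760,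
  537985217, 806420650, 2148597944, 4296081593, 6443565240, 6846218444, 75431477428,
  17180983473, 18053398723, 23690543291, 34360852657, 51540721848, 51943375044, 60399091892,
  131241, 8520905, 34468922563, 40810710195, 8522945, 4303523016, 21483359379, 73022966932,
  8528073, 8544449, 4303515848, 21483380875, 73022988428, 42074312, 17221946515, 17221968011,
  109183163, 1182926027, 1182930112, 3330462926, 106409628822, 1182933195, 1182965952,
  3330455758, 106409664654, 3330408588, 11920343180, 11920397518, 114999563414, 18362794124,
  18362848454, 31247701142, 69902401672, 87082270860, 87082325190, 99967177878, 276955328,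
  2424442003, 2424463499, 813826227, 948045002, 948049088, 3095581902, 106174747798, 948052170,
  948084928, 3095574734, 106174783630, 3095527564, 11685462156, 11685516494, 114764682390,
  18127913100, 18127967430, 31012820118, 52487651464, 86847389836, 86847444166, 99732296854,
  2156003512, 4303487176, 6450970808, 6719410324, 6920777934, 109798666422, 6719438988,
  6920770766, 109798659254, 6853623948, 6853678286, 109932844182, 75438882956, 75438937270,
  75640214678, 17188389040, 34368258184, 51548127416, 51816566932, 52017934534, 64701509814,
  51816595596, 52017927366, 64701502646, 51950780556, 51950834886, 64835687574, 60406497420,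
  60406551734, 60607829142, 524473, 537396393, 6988235979, 52085392579, 537397441, 4832561323,
  4844947611, 537398449, 604769482, 52144114843, 69323984027, 537460929, 537526473, 34897267891,
  34997928075, 537591985, 604704970, 52144308363, 69324177547, 541589698, 6984043723,
  6984044747, 75703517322, 545783944, 549978291, 684197065, 684198084, 11422009550,
  114500831390, 684201156, 11422012622, 114500834462, 684523716, 11421948110, 114501157006,
  11421614217, 17864065164, 17864463558, 30748972190, 35043934344, 86583541897, 86583937222,
  99468445854, 570949833, 34930691227, 34930884747, 604504202, 638058667, 654836937, 654837956,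
  11392649422, 114471471262, 654841028, 11392652494, 114471474334, 655163588, 11392587982,
  114471796878, 11392254089, 17834705036, 17835103430, 30719612062, 35014574216, 86554181769,
  86554577094, 99439085726, 2684878984, 2697462987, 54224487595, 4832362648, 6979846296,
  7114129608, 24159781043, 75699388596, 17717264536, 17817993411, 34897133704, 34909717683,
  34997798059, 52077002920, 52081200323, 52081201347, 60671131786, 1048728, 4194488, 272646282,
  272911524, 13160434894, 103354748102, 274746524, 13159976142, 103354289350, 8862583964,
  8866057422, 111942126758, 68992126108, 68995599558, 81877355686, 272760970, 272796836,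
  13160320206, 103354633414, 274861204, 13159804110, 103354117318, 8862698644, 8865885390,
  111941954726, 68992240788, 68995427526, 81877183654, 273678474, 273714332, 13158943950,
  103353257158, 273943700, 13158886606, 103353199814, 8863616148, 8864050382, 111942872222,
  68993158292, 68993592518, 81878101150, 4567597194, 4567633052, 4571106510, 107647175846,
  4567862420, 4571049166, 107647118502, 4569697428, 4570131662, 107648953502, 73287077012,
  73287511206, 73290263710, 34632368266, 34632404124, 34635877574, 47517633702, 34632633492,
  34635820230, 47517576358, 34634468500, 34634902726, 47519411358, 43222305940, 43222740134,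
  43225492638, 8388744, 8586433, 4305650888, 21483422883, 38663292067, 73023030436, 8914105,
  9438392, 6720324811, 51817481411, 9962689, 4305192136, 21484799131, 38664668315, 73024406684,
  75498688, 2223178955, 53762589851, 109053112, 377750724, 11118314701, 114194384037, 379585739,
  69099390149, 79836480669, 8967423132, 8970896589, 112046965925, 69096965283, 276825249,
  545260704, 813696179, 948241600, 3098870989, 106174940325, 948438218, 950535368, 18130797766,
  31015306398, 3095397532, 11685332124, 11688805582, 114764874918, 18127783068, 18131256518,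
  31013012646, 52487521433, 86847259804, 86850733254, 99732489382, 2155873440, 2961704139,
  53696005307, 4303357082, 6450840753, 6518211784, 23697818779, 58057557147, 75237426331,
  17188258992, 34368128153, 51547997361, 51615302851, 51615368384, 60205040794, 33554624,
  2181040274, 2181327051, 70903425197, 70921775269, 2183162028, 2204526797, 105283348637,
  2197842084, 2200856781, 105279678621, 70900541595, 2181054617, 2193768651, 53720793259,
  2181103817, 2181169297, 2182086809, 2182221003, 53721825419, 2189426850, 2191003796,
  2191438029, 105270259869, 2191032460, 2191430861, 105270252701, 2191261899, 70910743701,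
  70910779533, 70910476443, 36540776600, 67109065, 34426848409, 34426849433, 34426850464,
  34427636908, 34444151964, 34426871969, 34427924636, 34428182668, 34426912928, 34426978440,
  34427043985, 34427371672, 34427895945, 34428420240, 34431041680, 34435235992, 34439430282,
  34439466148, 34441530516, 268435600, 268574882, 286924980, 13339599054, 103533912262,
  404365484, 13310238926, 103504552134, 8860082348, 9082380494, 111960268982, 68989624492,
  69211922630, 81895497910, 269492378, 286466228, 13339140302, 103533453510, 403906732,
  13309780174, 103504093382, 8859623596, 9081921742, 111959810230, 68989165740, 69211463878,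
  81895039158, 276832410, 279126196, 13331800270, 103526113478, 411246756, 13298770126,
  103493083334, 8866963620, 9070911694, 111948800182, 68996505764, 69200453830, 81884029110,
  335552666, 337846444, 13243719886, 103438033094, 352526500, 13240049870, 103434363078,
  8925683876, 8953471182, 112007520430, 69055226020, 69083013318, 81942749358, 4563411098,
  4565704876, 4788003022, 107665891510, 4580384932, 4784333006, 107662221494, 4697825444,
  4725612750, 107779661998, 73283084452, 73310871734, 73487032494, 536871113, 34896610457,
  34898314419, 34997404835, 34896611489, 34896612497, 34896634017, 34897686684, 34897944716,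
  34896674977, 34896740488, 34896806050, 34898379955, 34898380979, 34898383024, 34931933323,
  35032596616, 34897657993, 34898182298, 34900803720, 34902377651, 35001468067, 34909192338,
  34909221044, 35043434636, 34930163864, 34997272721, 34997293212, 35000766638, 35022786726,
  34997551244, 35000702126, 35022722214, 34999386252, 34999784622, 35024557214, 35014066316,
  35014464678, 35017217182, 2147483824, 4294967456, 4295492785, 4375184587, 55902209195,
  4295493817, 4295494840, 4564192460, 73283407004, 4295557305, 4295622842, 5100933292,
  5323231438, 108201119926, 5117706380, 5319038158, 108196926646, 5235146892, 5260317902,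
  108314367150, 73820405900, 73845576886, 74021737646, 4295688376, 4564127948, 73283600524,
  4299686074, 5104994507, 5104996555, 73824469129, 4303880346, 4304081097, 38663815307,
  73023553675, 4308074675, 4442293449, 4442294460, 5784864974, 108863686814, 4442297532,
  5784868046, 108863689886, 4442423484, 5784606926, 108863815822, 4442620104, 21622495422,
  23233101966, 5784469641, 21622161548, 21622559934, 23232779422, 38802030728, 55981899912,
  90341638281, 90342033598, 91952253086, 4329046217, 38688787611, 38688981131, 4362600584,
  4396155051, 4412933321, 4412934332, 5755504846, 108834326686, 4412937404, 5755507918,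
  108834329758, 4413063356, 5755246798, 108834455694, 4413259976, 21593135294, 23203741838,
  5755109513, 21592801420, 21593199806, 23203419294, 38772670600, 73132408968, 90312278153,
  90312673470, 91922892958, 4563927178, 5100798104, 5235081416, 22280732851, 73820340404,
  21475360920, 21576089787, 38655230128, 55835099304, 55839295675, 55839296699, 55839297724,
  56913035401, 17179869321, 17179895986, 17280821420, 18912405702, 30186694846, 17293142211,
  17297336476, 18908276934, 30182566078, 18354301084, 18379794630, 31239530670, 25870493866,
  17180002480, 17215129771, 17226139811, 17180068026, 17985407154, 17986947267, 17987471508,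
  18188839110, 30872414390, 18086037651, 18119592084, 18122778822, 31004534950, 26575308962,
  17180395712, 19328075947, 19340462235, 17180919985, 18053335235, 23690479803, 17181444274,
  17282140348, 18624710854, 31509219486, 17282238648, 17282369724, 18624596166, 31509448854,
  18355849364, 18356283590, 31240792222, 19429591193, 25872042132, 25872476350, 27482695838,
  17184065712, 17217644699, 17217816723, 17188260017, 17255393475, 23697819795, 17192454304,
  17193240768, 17327196316, 18938136774, 30212425918, 18266720412, 18468374726, 31151950006,
  25782913180, 25984567486, 27393853622, 17213425817, 17246980249, 18052417731, 23689562299,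
  17280534712, 17985177754, 19327355040, 23622322330, 23622551722, 23624091835, 23624616084,
  23649822902, 23825983662, 25235269806, 23635101843, 23639296148, 23642482870, 23840663718,
  25249949862, 23723182227, 23756736660, 23759923374, 23781943462, 25367390374, 24696260770,
  34359738520, 34360328369, 34361376952, 34764030148, 43219746996, 34363998385, 34368192689,
  34372387001, 34911355060, 35043475620, 34393358520, 34460467369, 34470953156, 43058790564,
  34628239536, 35165110440, 35303522500, 43759239348, 36507287720, 38654771376, 40802255010,
  40820605116, 41877569708]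

theorem result :
    (lam (T 8) = 7 ∧ Win (T 8) true (fun _ => (none : Option (Fin (lam (T 8)))))) ∧
    (lam (T 10) = 7 ∧ Win (T 10) true (fun _ => (none : Option (Fin (lam (T 10)))))) := by
  have n8 : (edges 8).Nodup := by decide +kernel
  have n10 : (edges 10).Nodup := by decide +kernel
  have l8 := lam_eq n8 (by decide +kernel) (fun i => [0, 1, 2, 3, 4, 5, 6, 0].getD i 0)
    (by decide +kernel) (by decide +kernel)
  have l10 := lam_eq n10 (by decide +kernel) (fun i => [0, 1, 2, 3, 4, 0, 5, 6, 1, 4].getD i 0)
    (by decide +kernel) (by decide +kernel)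
  exact ⟨⟨l8, win_of n8 l8 st8 (look 0 st8) (by decide +kernel)⟩,
    l10, win_of n10 l10 st10 (look 0 st10) (by decide +kernel)⟩

end Pool.Agent.Results.MP_08a4a0_co.FirstWins
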